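import Pool.Agent.R929.OE.Chow

/-!
# Derived invariance of Hodge numbers: nef classes of defect at most four

Let `X`, `Y` be smooth projective complex varieties of dimension `n` with `D(X) ≃ D(Y)`; `Twisted n` is
the Hodge theory of `X` and `Transform` the induced isomorphism of cohomology (graded by `p - q`,
isometric for the Mukai pairings).  Suppose that it commutes with `L`, `L'`, the pull-backs of ample
classes by morphisms `f : X → B`, `g : Y → B'` whose defect of semismallness
`max (2 k + dim B_k - n)` (`B_k` the set of points with `k`-dimensional fibres) is at most four:

* equivalences which are linear over `B = B'`, for fibrations all of whose fibres have dimension at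
  most four, of arbitrary Kodaira dimension, for every `n` (first part);
* all equivalences, if the canonical classes are semiample (or anti-semiample), and the
  pluricanonical morphisms have defect at most four; here `L = s c₁` (second part, the
  compatibility with `c₁` is proved in `R929.OD.intertwines_chern`).

The conditions `DefectFour` are theorems of de Cataldo and Migliorini.  In terms of the sheaves
`P_i = pH^i(f_* ℚ[n])`, `-4 ≤ i ≤ 4`: a class of degree `n - i - k` with `L ^ (k + 1) x = 0` is a sum
of primitive classes of `H^*(B, P_{-i})` and classes of lower perversity, the conditions are the
generalised Hodge–Riemann relations for the forms `∫ L ^ k ω ^ i x ∪ conj x`, `i = 4, 2, 0`, on the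
relatively primitive classes, and the first case of the relative hard Lefschetz theorem.  (A class
`x` in `H^*(B, P_{-2})` is relatively primitive if `ω ^ 3 x = 0` in `H^*(B, P_4)`, which is the condition
that `L ^ k ω ^ 3 x` is in the image of `L ^ (k + 1)`.)

The theorem: all Hodge numbers of `X` and `Y` agree if and only if, for `p + q + k + 2 = n`, the
spaces of classes `x` of type `(p, q)` with `L ^ k x = 0` have the same dimension for `X` and `Y`.
These spaces consist of the primitive classes of perversities `-3` and `-4`.

* They are zero for defect at most two (`MP_b4fe5e_ag.SmallDefect`).
* If all fibres of `f`, `g` have dimension three and are connected, they are the primitive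
  intersection cohomology of `B`, the same for `X` and `Y`: so **equivalences which are linear over
  `B` preserve the Hodge numbers in relative dimension three**, and all equivalences do if `± K` is
  semiample with equidimensional canonical fibration of relative dimension at most three (the
  canonical models are isomorphic).
* If all fibres have dimension four, and are irreducible outside a set of codimension two in `B`,
  they come from the intersection cohomology of `B` with constant coefficients and with
  coefficients in `R^1 f_*`, which are the same for `X` and `Y`, because the generic fibres have
  isogenous Albanese varieties (Popa and Schnell; over function fields Honigs).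
* For `n = 4` and `L = 0` the theorem says that the Hodge numbers agree if and only if `h^{1,0}` does,
  which is in the starting result `MP_b4fe5e_ag.HodgeInertia`.

The proof computes, for `p + q + k = n`, the negative index of the hermitian form `∫ L ^ k x ∪ conj y`
on `H^{p,q}` (`R929.OE.neg_dim`) by a recursion from `(p, q)` to `(p + 1, q + 1)`: negative
semidefinite and positive semidefinite subspaces of complementary dimensions are built from
`L H^{p,q}`, the primitive classes, and `ω` times the relatively primitive classes.  The inertia of
the whole form on `⊕_k H^{p+k, q+k}` (with the factor `exp (c₁ / 2)`) is preserved by the equivalence.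
-/

namespace Pool.Agent.Results.MP_b4fe5e_ag.DefectFour

open Pool.Agent.TH125.Tw Pool.Agent.R929.OE Pool.Agent.R929.OD

/-- **Theorem.** -/
theorem result {n : ℕ} (X Y : Twisted n) (Φ : Transform X Y) :
    (∀ (L : Module.End ℂ X.H) (L' : Module.End ℂ Y.H), DefectFour X L → DefectFour Y L' →
      Intertwines Φ L L' →
      ((∀ p q : ℕ, X.hodgeNumber p q = Y.hodgeNumber p q) ↔ SameNullities X Y L L')) ∧
    (∀ s : ℤ, DefectFour X (s • X.chern) → DefectFour Y (s • Y.chern) →
      ((∀ p q : ℕ, X.hodgeNumber p q = Y.hodgeNumber p q) ↔
        SameNullities X Y (s • X.chern) (s • Y.chern))) :=
  ⟨fun _ _ hX hY hΦ => main_iff hX hY Φ hΦ, fun _ hX hY => canonical_iff Φ hX hY⟩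

end Pool.Agent.Results.MP_b4fe5e_ag.DefectFour
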