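import Pool.Agent.R929.DK.Main

/-!
# Derived invariance of the numbers `h^{p,0}`: nef canonical class of numerical dimension `≥ n - 2`

Let `X`, `Y` be smooth projective complex varieties of dimension `n` with `D(X) ≃ D(Y)`, and suppose
that the equivalence commutes with (the line bundles with classes) `L` and `L'`, which are
represented by closed semipositive `(1, 1)`-forms.  Examples:

* `L = ± K` if this class is semipositive, for instance semiample (an equivalence commutes with the
  Serre functors);
* `L`, `L'` the pull-backs of an ample class of `B`, for an equivalence which is linear over `B`,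
  for arbitrary morphisms `X → B`, `Y → B`.

The theorem: for all `p`, the rank of `L ^ (n - p - 2)` on the space `H^{p,0}` of holomorphic
`p`-forms is the same for `X` and `Y`; if the kernels have the same dimension then
`h^{p,0}(X) = h^{p,0}(Y)` for all `p`.  If `L ^ (n - 2) ≠ 0` (numerical dimension at least `n - 2`)
then the kernels are zero, because `L ^ (n - p - 2) ∧ x` is not zero where `L` has rank at least
`n - 2` and `x` is not zero; if `L` is the pull-back of an ample class by a morphism to a variety
`B` of dimension `n - 3` then the kernels consist of the forms which come from (a resolution of) `B`,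
so they are the same for `X` and `Y` if the morphisms have connected fibres.

In particular all the numbers `h^{0,q}` are derived invariants of varieties with `K` or `-K`
semiample of Iitaka dimension at least `n - 3`.

The proof determines the negative index of the hermitian form `∫ x^∨ L^k conj(y)` on
`⊕_j H^{p+j, j}`, `k = n - p - 2`, which is a derived invariant: it is twice the rank above.  The
essential point is a degenerate mixed Hodge–Riemann relation: the form is nonnegative on the classes
`y` of type `(p + 1, 1)` with `L^k ω y = 0` (`R929.DK.upper`).
-/

namespace Pool.Agent.Results.MP_b4fe5e_ag.HolomorphicForms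

open Pool.Agent.W539.DI Pool.Agent.R929.DH Pool.Agent.R929.DK

/-- **Theorem.** -/
theorem result {n : ℕ} (X Y : KRing n) (L : X.R) (L' : Y.R) (hX : Semipositive X L)
    (hY : Semipositive Y L') (Φ : FM X Y) (hc : Intertwines Φ X.c Y.c)
    (hL : Intertwines Φ L L') :
    (∀ (p : ℤ) (k : ℕ), p + k + 2 = n → rank X L p k = rank Y L' p k) ∧
      ((∀ (p : ℤ) (k : ℕ), p + k + 2 = n → nullity X L p k = nullity Y L' p k) →
        ∀ p : ℤ, X.h p 0 = Y.h p 0) :=
  ⟨fun _ _ hk => rank_invariant hX hY hc hL hk, fun hN p => holo_eq hX hY hc hL hN p⟩

end Pool.Agent.Results.MP_b4fe5e_ag.HolomorphicForms
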