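import Pool.Agent.R929.DM.Five

/-!
# Derived invariance of Hodge numbers: fivefolds with semiample canonical or anticanonical bundle

Let `X`, `Y` be smooth projective complex varieties of dimension `5` with `D(X) ≃ D(Y)`, and suppose
that a multiple `M = K^(ε m)` of the canonical bundle (`ε = 1`) or of the anticanonical bundle
(`ε = -1`) is generated by its sections, for `X` and for `Y`.

* The equivalence induces an isometry of cohomology (`FM`) and commutes with `c₁` (Serre functors).
* `canon X ε` is the class `ε K = - ε c₁`; it is semipositive.
* `Sections X ε m`: the number `∫ c₁ c₄`, the formula of Libgober and Wood, the smooth intersections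
  `D k` of `k` general members of `|M|`, and the adjunction formula
  `∫ c₁(M) c₄(X) = ∑_{k ≥ 1} χ(D k)`.
* The spaces of sections of `M` on `X` and `Y` are identified by the equivalence, and it restricts to
  equivalences `D(D k(X)) ≃ D(D k(Y))` for corresponding sections (Orlov; Toda, Fourier-Mukai
  transforms and canonical divisors), so the Hochschild homologies of these varieties are
  isomorphic: this is `hAB`.
* `h1`: one has `h^{1,0}(X) = h^{1,0}(Y)` by Popa and Schnell; for Iitaka dimension of `ε K` at
  least three the alternative condition holds too, since `K²` is injective on the holomorphic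
  one-forms.
* `h2`: the spaces of holomorphic two-forms `x` with `K x = 0` in cohomology have the same dimension.
  They are zero if the Iitaka dimension is at least three; if it is two they consist of the forms
  which come from the surface which is the common canonical model; if it is one they are the part
  of type `(2, 0)` of the first cohomology of the base with values in the local system of the first
  cohomology groups of the fibres, which agree for `X` and `Y` as the generic fibres are derived
  equivalent over the function field of the base and hence have isogenous Albanese varieties.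

The theorem: all Hodge numbers agree.  The case of Iitaka dimension zero (torsion canonical bundle)
is the starting result `MP_b4fe5e_ag.TorsionCanonicalFivefolds`.

The proof: (1) `R929.DK`: the rank of `K` on the space of holomorphic two-forms is a derived
invariant, by a degenerate Hodge–Riemann relation for `ε K`; so `h^{2,0}` is one.  (2)
`R929.DM.moment_inv`, in all dimensions: `∫ c₁ c_{n-1}` and hence (Libgober–Wood)
`∑ (-1)^{p+q} (p - n/2)² h^{p,q}` are derived invariants if `± K` is semiample.  (3) the relations of
`MP_b4fe5e_ag.HodgeInertia`.
-/

namespace Pool.Agent.Results.MP_b4fe5e_ag.SemiampleFivefolds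

open Pool.Agent.W539.DI Pool.Agent.R929.DH Pool.Agent.R929.DK Pool.Agent.R929.DM

/-- **Theorem.** -/
theorem result (X Y : KRing 5) (Φ : FM X Y) (hc : Intertwines Φ X.c Y.c) (ε : ℤ)
    (hε : ε = 1 ∨ ε = -1) (hX : Semipositive X (canon X ε)) (hY : Semipositive Y (canon Y ε))
    (m : ℕ) (hm : 0 < m) (A : Sections X ε m) (B : Sections Y ε m)
    (hAB : ∀ k ∈ Finset.Icc 1 5, Nonempty (HH (A.D k) (B.D k)))
    (h1 : X.h 1 0 = Y.h 1 0 ∨ nullity X (canon X ε) 1 2 = nullity Y (canon Y ε) 1 2)
    (h2 : nullity X (canon X ε) 2 1 = nullity Y (canon Y ε) 2 1)
    (p q : ℤ) : X.h p q = Y.h p q :=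
  fivefolds (by rcases hε with h | h <;> rw [h] <;> norm_num) hX hY Φ hc hm.ne' A B hAB h1 h2 p q

end Pool.Agent.Results.MP_b4fe5e_ag.SemiampleFivefolds
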