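import Pool.Agent.R929.DH.Main

/-!
# Derived invariance of Hodge numbers: equivalences commuting with a nef class of defect at most two

Let `X`, `Y` be smooth projective complex varieties of dimension `n` with `D(X) ≃ D(Y)`; `KRing` is
the Hodge theory of `X` and `FM` the induced isomorphism of cohomology (real, graded by `p - q`,
isometric for the Mukai pairings).  It commutes with the first Chern classes, because an equivalence
commutes with the Serre functors.  Suppose that it also commutes with nef classes `L`, `L'` which
are pull-backs of ample classes by morphisms `f : X → B`, `g : Y → B` whose defect of semismallness
`max (2 k + dim B_k - n)` (`B_k` the set of points with `k`-dimensional fibres) is at most two: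

* equivalences which are linear over `B`, for instance relative Fourier–Mukai transforms of
  fibrations with all fibres of dimension at most two (elliptic fibrations, fibrations in K3 or
  abelian surfaces, ...), of arbitrary Kodaira dimension, for every `n`;
* all equivalences, if the canonical classes are semiample (or anti-semiample), `L = ± K`, and the
  pluricanonical morphism has defect at most two.

The conditions `DefectTwo` are then theorems of de Cataldo and Migliorini (hard Lefschetz theorem for
perverse cohomology groups, generalised Hodge–Riemann relations).  The theorem: `X` and `Y` have the
same Hodge numbers.

The proof compares, for `p + q + k = n`, the negative index of the hermitian form `∫ L ^ k x conj(y)`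
on `H^{p,q}` with the one for a Kähler class: it is bounded above by the limit `L + t ω → L` and
below by the relative Hodge–Riemann relations; the inertia of the whole form on
`⊕_k H^{p+k, q+k}` (with the unipotent factor `exp (c₁ / 2)`) is a derived invariant.
-/

namespace Pool.Agent.Results.MP_b4fe5e_ag.SmallDefect

open Pool.Agent.W539.DI Pool.Agent.R929.DH

/-- **Theorem.** -/
theorem result {n : ℕ} (X Y : KRing n) (L : X.R) (L' : Y.R) (hX : DefectTwo X L)
    (hY : DefectTwo Y L') (Φ : FM X Y) (hc : Intertwines Φ X.c Y.c) (hL : Intertwines Φ L L')
    (p q : ℤ) : X.h p q = Y.h p q :=
  main hX hY hc hL p q

end Pool.Agent.Results.MP_b4fe5e_ag.SmallDefect
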